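import Pool.Agent.Helper70.GUM.St1

/-!
# Project GUM, module CH1: chains of functions with one strict step
-/

set_option autoImplicit false

namespace Pool.Agent.Helper25.GUM

open Pool.Agent.Helper70.GUM Module OG UN

universe u v w z

section aux

variable {k : Type u} {F : Type v} {R : Type w} {K : Type z} [Field k] [Field F] [Fintype F]
  [Algebra k F] {σ : F ≃ₐ[k] F} [CommRing R] [Field K] [Algebra R K] {hσ : QE σ}

/-- multiplication by a constant of `K` -/
private noncomputable def mc (hσ : QE σ) (R : Type w) [CommRing R] [Algebra R K] (c : K) :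
    (Hei hσ → K) →ₗ[R] (Hei hσ → K) where
  toFun f := fun g => c * f g
  map_add' f f' := by
    funext g
    simp only [Pi.add_apply]
    ring
  map_smul' a f := by
    funext g
    simp only [Pi.smul_apply, RingHom.id_apply]
    rw [mul_smul_comm]

omit [Fintype F] in
private lemma mc_apply (c : K) (f : Hei hσ → K) (g : Hei hσ) : mc hσ R c f g = c * f g := rfl

private lemma mc_XL (r : R) (ε : F) (c : K) :
    Commute (XL (K := K) (hσ := hσ) r ε) (mc hσ R c) := by
  ext f g
  show XL r ε (mc hσ R c f) g = mc hσ R c (XL r ε f) g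
  rw [XL_apply, mc_apply, XL_apply, mul_neg, mul_smul_comm, Finset.mul_sum]
  rfl

private lemma mc_XR (r : R) (ε : F) (c : K) (f : Hei hσ → K) :
    XR r ε (mc hσ R c f) = mc hσ R c (XR r ε f) := by
  funext g
  rw [XR_apply, mc_apply, XR_apply, mul_neg, mul_smul_comm, Finset.mul_sum]
  rfl

private lemma mc_ZZ (q : ℕ) (r : R) (ε : F) (c : K) (f : Hei hσ → K) :
    ZZ q (XL r ε) (mc hσ R c f) = mc hσ R c (ZZ q (XL r ε) f) := by
  have h : Commute (ZZ q (XL (K := K) (hσ := hσ) r ε)) (mc hσ R c) := by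
    unfold ZZ
    refine Commute.sum_left _ _ _ fun j _ => ?_
    exact Commute.smul_left ((mc_XL r ε c).pow_left j) _
  exact LinearMap.congr_fun h f

omit [Fintype F] in
private lemma mc_Fun {χ : AddChar F R} (c : K) {f : Hei hσ → K} (hf : f ∈ Fun R K hσ χ) :
    mc hσ R c f ∈ Fun R K hσ χ := by
  rw [mem_Fun] at hf ⊢
  intro g z hz
  rw [mc_apply, mc_apply, hf g z hz, mul_smul_comm]

end aux

/-- CH1 -/
theorem hCH1 (hPOW : StPOW.{u, v, w, z}) (hSTAR : StSTAR.{u, v, w, z}) (hKEY : StKEY.{u, v, w, z})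
    (hONE : StONE.{w, z}) : StCH1.{u, v, w, z} := by
  intro k F R K _ _ _ _ _ σ _ _ _ _ _ _ hσ χ r x hC hS hB J P hmono hP hLt hX hred n
  obtain ⟨hpr, hpl⟩ := hPOW hσ hC hS hB
  let L : K →ₗ[R] (Hei hσ → K) :=
    { toFun := fun c => mc hσ R c (DD K hσ χ)
      map_add' := by
        intro c c'
        funext g
        simp only [Pi.add_apply, mc_apply]
        ring
      map_smul' := by
        intro a c
        funext g
        simp only [Pi.smul_apply, mc_apply, RingHom.id_apply, smul_mul_assoc] }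
  have hL : ∀ c, L c = mc hσ R c (DD K hσ χ) := fun _ => rfl
  let E : ℕ → Submodule R K := fun i => (P i).comap L
  have hE : (steps E n).card ≤ 1 := by
    refine hONE E ?_ ?_ n
    · intro i j hij
      exact Submodule.comap_mono (hmono hij)
    · intro i a ha c hc
      show L (a • c) ∈ P 0
      rw [map_smul]
      exact hred i a ha _ hc
  refine steps_le_one P E 1 n ?_ hE
  intro i hEi
  refine le_antisymm (hmono (Nat.le_succ i)) ?_
  -- the operator preserves the chain
  have hXL : ∀ j, ∀ f ∈ P j, XL r (ep x 1) f ∈ P j := by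
    intro j f hf
    rw [hB.xlsum]
    refine (P j).neg_mem ((P j).smul_mem _ ((P j).sum_mem fun a _ => hLt j f hf _))
  have hXLp : ∀ (j m : ℕ), ∀ f ∈ P j, ((XL r (ep x 1)) ^ m) f ∈ P j := by
    intro j m
    induction m with
    | zero =>
      intro f hf
      rw [pow_zero]
      exact hf
    | succ m ih =>
      intro f hf
      rw [pow_succ]
      exact ih _ (hXL j f hf)
  have hZZ : ∀ j, ∀ f ∈ P j, ZZ (Nat.card k) (XL r (ep x 1)) f ∈ P j := by
    intro j f hf
    unfold ZZ
    rw [LinearMap.sum_apply]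
    refine (P j).sum_mem fun m _ => ?_
    rw [LinearMap.smul_apply]
    exact (P j).smul_mem _ (hXLp j m f hf)
  have main : ∀ f ∈ P (i + 1), ZZ (Nat.card k) (XL r (ep x 1)) f ∈ P i := by
    intro f hf
    by_cases hf0 : f = 0
    · rw [hf0, map_zero]
      exact (P i).zero_mem
    obtain ⟨hfF, hfJ⟩ := hP _ hf
    obtain ⟨g₀, hg₀⟩ := Finite.exists_max fun g => ValuationRing.valuation R K (f g)
    have hκ : f g₀ ≠ 0 := by
      intro h0
      apply hf0
      funext g
      have h1 := hg₀ g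
      rw [h0, map_zero] at h1
      have h2 := le_antisymm h1 zero_le
      exact (Valuation.zero_iff _).1 h2
    have hint : ∀ g, ∃ b : R, algebraMap R K b = (f g₀)⁻¹ * f g := by
      intro g
      have h1 : (f g₀)⁻¹ * f g ∈ (ValuationRing.valuation R K).integer := by
        rw [Valuation.mem_integer_iff, map_mul, map_inv₀]
        have h2 : ValuationRing.valuation R K (f g₀) ≠ 0 := (Valuation.ne_zero_iff _).2 hκ
        rw [inv_mul_le_iff₀ (zero_lt_iff.2 h2), mul_one]
        exact hg₀ g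
      exact (ValuationRing.mem_integer_iff R K _).1 h1
    have hm : mc hσ R (f g₀)⁻¹ f ∈ Lam R K hσ χ := by
      refine Submodule.mem_inf.2 ⟨mc_Fun _ hfF, mem_VS.2 fun g => ?_⟩
      obtain ⟨b, hb⟩ := hint g
      rw [mc_apply, ← hb]
      exact Submodule.mem_one.2 ⟨b, rfl⟩
    have hfm : mc hσ R (f g₀) (mc hσ R (f g₀)⁻¹ f) = f := by
      funext g
      rw [mc_apply, mc_apply, mul_inv_cancel_left₀ hκ]
    obtain ⟨r₀, m', hm', hst⟩ := hSTAR hσ hC hS hB hpr hpl _ hm
    have hJ' : mc hσ R (f g₀) m' ∈ Fun R K hσ χ ⊓ VS hσ J := by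
      refine Submodule.mem_inf.2 ⟨mc_Fun _ hm'.1, mem_VS.2 fun g => ?_⟩
      have h1 := hm'.2 g
      obtain ⟨b, hb⟩ := Submodule.mem_one.1 h1
      rw [mc_apply, ← hb, mul_comm, ← Algebra.smul_def]
      exact J.smul_mem _ (hfJ g₀)
    have hZf : ZZ (Nat.card k) (XL r (ep x 1)) f = L (f g₀ * algebraMap R K r₀) +
        (XR r (ep x 1) (mc hσ R (f g₀) m') - mc hσ R (f g₀) m') := by
      conv_lhs => rw [← hfm]
      rw [mc_ZZ, hst, map_add, map_sub, mc_XR, hL]
      congr 1
      funext g
      rw [mc_apply, mc_apply, Pi.smul_apply, Algebra.smul_def]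
      ring
    have h0 : XR r (ep x 1) (mc hσ R (f g₀) m') - mc hσ R (f g₀) m' ∈ P 0 := hX _ hJ'
    have h1 : L (f g₀ * algebraMap R K r₀) ∈ P (i + 1) := by
      have h2 := (P (i + 1)).sub_mem (hZZ _ f hf) (hmono (Nat.zero_le (i + 1)) h0)
      rw [hZf, add_sub_cancel_right] at h2
      exact h2
    have h2 : f g₀ * algebraMap R K r₀ ∈ E i := by
      rw [hEi]
      exact h1
    rw [hZf]
    exact (P i).add_mem h2 (hmono (Nat.zero_le i) h0)
  intro f hf
  obtain ⟨α, u, v, hk⟩ := hKEY hσ hC hS hB hpl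
  rw [hk f (hP _ hf).1]
  refine (P i).sum_mem fun b _ => (P i).smul_mem _ (hLt i _ (main _ (hLt _ f hf _)) _)

end Pool.Agent.Helper25.GUM
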